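import Mathlib

set_option autoImplicit false

namespace Pool.Agent.MP_2b7300_co

/-- `G` is drawn in the plane: distinct points for the vertices, a simple arc for each edge that
passes through no other vertex, arcs of different edges meeting only in a common end. -/
def Planar {V : Type} (G : SimpleGraph V) : Prop :=
  ∃ (f : V → ℂ) (γ : V → V → unitInterval → ℂ),
    Function.Injective f ∧
    (∀ u v, G.Adj u v →
      Continuous (γ u v) ∧ Function.Injective (γ u v) ∧ γ u v 0 = f u ∧ γ u v 1 = f v ∧
      ∀ (w : V) (s : unitInterval), γ u v s = f w → w = u ∨ w = v) ∧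
    ∀ u v x y, G.Adj u v → G.Adj x y → s(u, v) ≠ s(x, y) →
      ∀ s t : unitInterval, γ u v s = γ x y t →
        ∃ w : V, (w = u ∨ w = v) ∧ (w = x ∨ w = y) ∧ γ u v s = f w

end Pool.Agent.MP_2b7300_co
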